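import Pool.Agent.W534.FamD

/-!
# The conjecture D in one codimension on the product of a variety and a hyperplane section

Let `X` be a smooth projective variety of dimension `n` over a field of any characteristic, `W` a
Weil cohomology theory, `D` a divisor on `X` with hard Lefschetz, and `i : Y → X` a morphism from a
variety of dimension `n - 1` with `i_* [Y] = [D]` (in cohomology) which satisfies weak Lefschetz: for
example the inclusion of a smooth hyperplane section.

1. Homological and numerical equivalence agree on `X × Y` in all codimensions if and only if they
   agree in the one codimension `n`, and if and only if the conjecture B holds for `X` and they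
   agree in codimension `n - 1`.
2. If this is so, then every numerically trivial cycle on `X × X` (of any codimension) acts as zero
   on the cohomology of `X` outside degree `n` and on the multiples of `D`, and its values are
   primitive classes of degree `n`; and every numerically trivial cycle on `Y × Y` acts as zero on
   the image of `H(X)` in `H(Y)`, with values in the kernel of the push-forward `H(Y) → H(X)` (the
   vanishing cohomology).

No positivity (conjecture of Hodge type) is used, and nothing is assumed on the conjecture B.

The proof is in the starting files `Pool/Agent/W534`, whose theorems had not been handed in.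
-/

open Pool.Agent.H914 Pool.Agent.H914.VarClass.Obj Pool.Agent.H447 Pool.Agent.W534

universe u v

namespace Pool.Agent.Results.MP_f569db_ag.HyperplaneProduct

/-- **The conjecture D on the product of a variety and a hyperplane section is a statement in one
codimension, and gives the conjecture B.** -/
theorem result {k : Type u} [Field k] {𝒱 : VarClass k} {ops : CycleOps 𝒱}
    (W : WeilCohomology.{u, v} ops) (X Y : 𝒱.Obj) (i : Y ⟶ X) (hdim : X.dim = Y.dim + 1)
    (D : X.Cycles) (hD : X.IsCyc 1 D) (hY : W.cl X (ops.push i Y.V.fundCycle) = W.cl X D)
    (hHL : HardLefschetz W X D) (hWL : WeakLefschetz W i) :
    List.TFAE [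
      HomEqNumIn W (X.prod Y) X.dim,
      ∀ q, HomEqNumIn W (X.prod Y) q,
      LefschetzB W X D ∧ HomEqNumIn W (X.prod Y) Y.dim] ∧
    (HomEqNumIn W (X.prod Y) X.dim → ∀ q, NumTrivialOnSquares W i D q) :=
  ⟨d_hyperplane hdim hD hY hHL hWL, fun h q => numTrivialOnSquares hdim hD hY hHL hWL h q⟩

end Pool.Agent.Results.MP_f569db_ag.HyperplaneProduct
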