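import Pool.Agent.X312.RL.Rel

/-!
# A gap law for the standard conjecture D on the products of a fixed variety with powers

Let `k` be an algebraically closed field, `W` any Weil cohomology theory (with coefficient field `K` of
characteristic zero) on a class of smooth proper varieties over `k` which is closed under products, and
let `X` and `Y` be **any two** varieties of the class. Let `b` be the sum of the Betti numbers of `X`.
For a variety `Z` of the class let

* `r(Z)` be the rank of the group of the cycles of all codimensions on `Z` modulo numerical
  equivalence;
* `h(Z)` be the dimension of the subspace of `H(Z)` spanned over `K` by the classes of the algebraic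
  cycles of all codimensions.

So `r(Z) ≤ h(Z)`, and homological and numerical equivalence coincide on `Z` if and only if
`r(Z) = h(Z)`. The variety `Y` is fixed, and we consider the varieties `Y × X ^ n`. The theorem: **if
homological and numerical equivalence do not coincide on one of them, `Y × X ^ m`, then**

`h(Y × X ^ n) - r(Y × X ^ n) ≥ (1 - 4 (m + 3) b ^ (m + 5) log (n + 1) / n) * r(X ^ n)` **for all**
`n ≥ 1`.

So there is a gap: either homological and numerical equivalence coincide on all `Y × X ^ n`, or, for
large `n`, the difference `h(Y × X ^ n) - r(Y × X ^ n)` is at least `(1 - o(1)) r(X ^ n)`, which grows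
exponentially if `X` has algebraic classes in several degrees. The conjecture D for the variety
`Y × X ^ m`, in all codimensions, follows from a single inequality
`h(Y × X ^ n) - r(Y × X ^ n) < (1 - 4 (m + 3) b ^ (m + 5) log (n + 1) / n) r(X ^ n)` for one `n`. Nothing is
assumed on `X`, on `Y` or on the cohomology; no standard conjecture, no Lefschetz theorem and no
finite-dimensionality is used. The laws on the powers of one variety which are known say nothing on
this problem, because `Y` occurs with exponent one (the conjecture D may be true for all powers of
`X` and false for `Y × X`).

The proof. Identify the classes on `Y × Z` with the homomorphisms `H(Y) → H(Z)`. The numerically trivial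
algebraic classes form a family of subspaces `N(Z)` which is stable under algebraic correspondences
`Z → Z'` (but not under those of `Y`). Let `P = X ^ m`, `N(P) ≠ 0`. Take an idempotent algebraic
correspondence `g` on `P` of minimal rank with `g N(P) ≠ 0` and `0 ≠ z ∈ g N(P)`. Every correspondence `x`
with `x z = 0` has a nilpotent compression `g x g`, by the Fitting decomposition and the minimality, so
the trace of `g x` vanishes. Therefore the dimension of the space of the classes `u z`, `u : P → Z`, is
at least the rank of the trace form `(u, v) ↦ tr (g v u)`, for all `Z`. For `Z = X ^ n` this rank is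
compared with `r(X ^ n)` by means of the log-convexity of the ranks `r(X ^ (2 l + 2))` and of the
permutations of the factors. The module and the engine (which treats families of subspaces stable under
correspondences in general) are in `Pool/Agent/X312/RL`.
-/

set_option autoImplicit false

open CategoryTheory AlgebraicGeometry

universe u v

namespace Pool.Agent.Results.MP_f569db_ag.RelativeGapLaw

open Pool.Agent.H914 Pool.Agent.H914.VarClass Pool.Agent.H914.VarClass.Obj
  Pool.Agent.H914.WeilCohomology Pool.Agent.Y133.Half

variable {k : Type u} [Field k] {𝒱 : VarClass k} {ops : CycleOps 𝒱}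

/-- The sum of the Betti numbers of `X`. -/
noncomputable def totalBetti (W : WeilCohomology.{u, v} ops) (X : 𝒱.Obj) : ℕ :=
  Module.finrank W.K (W.H X)

/-- **The gap law for the conjecture D on `Y × X ^ n`.** Here `pw X m` is the product of `m + 1` copies
of `X`, `HomEqNum W Z` says that homological and numerical equivalence coincide on `Z` in all
codimensions, `cycRank ops Z` is the rank of the cycles on `Z` modulo numerical equivalence, and
`algDim W Z` is the dimension of the span of the classes of the cycles on `Z`. -/
theorem result (W : WeilCohomology.{u, v} ops) (X Y : 𝒱.Obj) (m : ℕ) :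
    HomEqNum W (Y.prod (pw X m)) ∨ ∀ n : ℕ,
      cycRank ops (Y.prod (pw X n)) +
        (1 - 4 * (m + 4) * (totalBetti W X : ℝ) ^ (m + 6) * Real.log (n + 2) / (n + 1)) *
          cycRank ops (pw X n) ≤ algDim W (Y.prod (pw X n)) := by
  by_cases hD : HomEqNum W (Y.prod (pw X m))
  · exact Or.inl hD
  right
  intro n
  have hN : (algSys W).Num (Y.prod (pw X m)) ≠ ⊥ := by
    intro h
    apply hD
    apply Pool.Agent.Y129.homEqNum_of_algSpan
    intro c hc hc'
    have h1 : c ∈ (algSys W).Num (Y.prod (pw X m)) := mem_algNum.2 ⟨hc, hc'⟩
    rw [h, Submodule.mem_bot] at h1
    exact h1
  have h := Pool.Agent.X312.RL.full_rel (S := algSys W) (T := algSys W) (fun _ => le_rfl) Y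
    (Or.inr hN) n
  rw [numDim_eq_cycRank, numDim_eq_cycRank] at h
  have h1 : Module.finrank W.K ((algSys W).C (Y.prod (pw X n))) = algDim W (Y.prod (pw X n)) :=
    (algDim_eq W _).symm
  rw [h1] at h
  have h2 : Pool.Agent.X312.RL.cst (Module.finrank W.K (W.H X)) (m + 1) 2 n =
      4 * (m + 4) * (totalBetti W X : ℝ) ^ (m + 6) * Real.log (n + 2) / (n + 1) := by
    unfold Pool.Agent.X312.RL.cst totalBetti
    push_cast
    ring
  rw [h2] at h
  exact h

end Pool.Agent.Results.MP_f569db_ag.RelativeGapLaw
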