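import Pool.Agent.X208.SQ.Pow
import Pool.Agent.Y133.Half.DLaw

/-!
# A square root law for the standard conjecture D

Let `W` be any Weil cohomology theory (with coefficient field `K` of characteristic zero) on a class of
smooth proper varieties over an algebraically closed field `k` which is closed under products, and let
`X` be a variety of the class. For a variety `Z` of the class let

* `r(Z)` be the rank of the group of the cycles of all codimensions on `Z` modulo numerical
  equivalence;
* `h(Z)` be the dimension of the subspace of `H(Z)` spanned over `K` by the classes of the algebraic
  cycles of all codimensions.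

So `r(Z) ≤ h(Z)`, with equality if and only if homological and numerical equivalence coincide on `Z`.
The theorem: **if homological and numerical equivalence do not coincide on one power `X ^ m`, then for
all varieties `Y` of the class and all `n ≥ 1`**

`n * r(Y × X ^ n) ^ 2 ≤ 6144 m β ^ 2 b ^ (7 m) log (β b ^ m (n + 1)) * h(Y × X ^ n) ^ 2`,

where `b` and `β` are the sums of the Betti numbers of `X` and of `Y`. So for fixed `X`, `Y`, `m` there is
a constant `c > 0` with `h(Y × X ^ n) ≥ c √(n / log n) r(Y × X ^ n)` for all `n ≥ 2`: either homological
and numerical equivalence coincide on all powers of `X`, or `r(X ^ n) / h(X ^ n)` is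
`O(√(log n / n))`. In other words: the standard conjecture D for the fixed variety `X ^ m`, in all
codimensions, follows as soon as for **one** variety `Y` and **one** `n` the dimension of the algebraic
classes on `Y × X ^ n` is less than `√n / (C √(log n))` times the number of the numerically
independent ones. Nothing is assumed on `X`, `Y`, `k` and `W`; no standard conjecture (not the sign
conjecture either) and no Lefschetz theorem is used.

The best law of this kind known before is the logarithmic law `h(X ^ n) ≥ c log n * r(X ^ n)`
(`Pool.Agent.Results.MP_5f0950_ag.LogarithmicLaw`), whose proof needs nilpotent correspondences. The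
idea here is different. It suffices to treat `m = 1`. Let `z ≠ 0` be a numerically trivial algebraic
class on `X`, and `V = H(X)` with an ordered basis which contains `z`. An algebraic class on
`Y × X ^ n` has a leading word (the lexicographically smallest word with a nonzero coefficient). Let
`L_n` be the set of the leading words of the algebraic classes, so that `|L_n| = h(Y × X ^ n)`. The
insertion of `z` at any place, which is the pull-back along the projection forgetting this place
followed by the product with the pull-back of `z`, maps algebraic classes to numerically trivial
algebraic classes, and acts on the leading words by the insertion of a letter. So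
`h(Y × X ^ n) - r(Y × X ^ n)` is at least the number of the words obtained by one insertion from the
words in `L_(n-1)`. By double counting this number is at least the sum of `n / (a + 1)` over the words in
`L_(n-1)`, where `a` is the number of the letters `z` in the word. For almost all words `a` is at most
`n / b + O(√(n log n))`. On the other hand `h(X ^ n)` is at least `b ^ (n - 1) / (n + 1) ^ (b ^ 2)` (already
the permutations of the factors give so many classes), so that the exceptional words do not matter, and
`h(n) ≥ r(n) + b (1 - O(√(log n / n))) h(n - 1)`. Iterating this `√(n / log n)` times and comparing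
`r(n - j)` with `b ^ (-j) r(n)` one obtains the theorem.
-/

set_option autoImplicit false

open CategoryTheory AlgebraicGeometry

universe u v

namespace Pool.Agent.Results.MP_f569db_ag.SquareRootLaw

open Pool.Agent.H914 Pool.Agent.H914.VarClass Pool.Agent.H914.VarClass.Obj
  Pool.Agent.H914.WeilCohomology Pool.Agent.Y133.Half

variable {k : Type u} [Field k] {𝒱 : VarClass k} {ops : CycleOps 𝒱}

/-- The sum of the Betti numbers of `X`. -/
noncomputable def totalBetti (W : WeilCohomology.{u, v} ops) (X : 𝒱.Obj) : ℕ :=
  Module.finrank W.K (W.H X)

/-- **The square root law for the conjecture D.** Here `pw X m` is the product of `m + 1` copies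
of `X`, `HomEqNum W Z` says that homological and numerical equivalence coincide on `Z` in all
codimensions, `cycRank ops Z` is the rank of the cycles on `Z` modulo numerical equivalence, and
`algDim W Z` is the dimension of the span of the classes of the cycles on `Z`. -/
theorem result (W : WeilCohomology.{u, v} ops) (X : 𝒱.Obj) (m : ℕ) :
    HomEqNum W (pw X m) ∨ ∀ (Y : 𝒱.Obj) (n : ℕ),
      ((n : ℝ) + 1) * (cycRank ops (Y.prod (pw X n)) : ℝ) ^ 2 ≤
        6144 * ((m : ℝ) + 1) * (totalBetti W Y : ℝ) ^ 2 * (totalBetti W X : ℝ) ^ (7 * (m + 1)) *
          Real.log (totalBetti W Y * (totalBetti W X : ℝ) ^ (m + 1) * ((n : ℝ) + 2)) *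
            (algDim W (Y.prod (pw X n)) : ℝ) ^ 2 := by
  by_cases hD : HomEqNum W (pw X m)
  · exact Or.inl hD
  right
  intro Y n
  have hN : (algSys W).Num (pw X m) ≠ ⊥ := by
    intro h
    apply hD
    apply Pool.Agent.Y129.homEqNum_of_algSpan
    intro c hc hc'
    have h1 : c ∈ (algSys W).Num (pw X m) := mem_algNum.2 ⟨hc, hc'⟩
    rw [h, Submodule.mem_bot] at h1
    exact h1
  have h := Pool.Agent.X208.SQ.sqrt_law_pow (algSys W) X Y hN n
  rw [numDim_eq_cycRank] at h
  have h1 : Module.finrank W.K ((algSys W).C (Y.prod (pw X n))) = algDim W (Y.prod (pw X n)) :=
    (algDim_eq W _).symm
  rw [h1] at h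
  exact h

end Pool.Agent.Results.MP_f569db_ag.SquareRootLaw
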