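import Pool.Agent.X208.SP.Alg

/-!
# The standard conjecture D and the symmetric powers of a variety

Let `W` be any Weil cohomology theory (with coefficient field `K` of characteristic zero) on a class of
smooth proper varieties over an algebraically closed field `k` which is closed under products, and let
`X` and `Y` be varieties of the class. The symmetric group `S_n` acts on `Y × X ^ n` by the permutations
of the factors `X`. For `n, j ≥ 0` let

* `r^j(Y × X ^ (n))` be the rank of the group of the symmetric cycles of codimension `j` on `Y × X ^ n`
  modulo numerical equivalence, i. e. the dimension of the space of the symmetrizations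
  `∑ σ^* z` (`σ ∈ S_n`) of the cycles `z` of codimension `j`, with rational coefficients, modulo
  numerical equivalence;
* `h^j(Y × X ^ (n))` be the dimension of the subspace of `H^(2 j)(Y × X ^ n)` spanned over `K` by the
  classes of these symmetrizations.

(With rational coefficients the symmetric cycles are the cycles on the quotient `Y × Sym^n X`, which is
in general singular.) So `r^j ≤ h^j`, with equality if homological and numerical equivalence coincide.
The theorem: **if homological and numerical equivalence do not coincide for the cycles of one
codimension `c` on `X`, then for all varieties `Y` of the class and all `n, j ≥ 0`**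

`r^j(Y × X ^ (n)) + r^(j - c)(Y × X ^ (n - 1)) + r^(j - 2 c)(Y × X ^ (n - 2)) + … ≤ h^j(Y × X ^ (n))`,

the sum being over the `i ≤ n` with `i c ≤ j`. In particular the standard conjecture D for `X` in
codimension `c` follows as soon as the opposite inequality is known for one variety `Y`, one `n` and one
`j`, and if D fails for `X` in codimension `c` then the numbers `h^j(Y × X ^ (n))` are, for every `Y`, at
least the sums of all numbers `r` over the line `(n - i, j - i c)`: a cycle on `X` which is numerically
but not homologically trivial forces the homological equivalence on `Y × Sym^n X` to be finer than the
numerical one by at least the whole numerical Chow groups of the `Y × Sym^i X` with `i < n`. Applied to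
the powers `X ^ m` instead of `X` this gives inequalities for the standard conjecture D for all powers.
Nothing is assumed on `X`, `Y`, `k` and `W`; no standard conjecture and no Lefschetz theorem is used.

The inequality is best possible for formal reasons: for a two-dimensional space `V` with a nondegenerate
symmetric form and a nonzero isotropic vector `z`, the tensors obtained from `z` and from the form by
products and permutations are stable under contractions, and for them (and `Y` a point) one has
`r(i) = 1` for even `i`, `r(i) = 0` for odd `i`, and `h(n) = [n / 2] + 1`: equality for all `n`.

The proof. Let `z ∈ H^(2 c)(X)` be the class of a numerically trivial cycle. The sum `T` over all places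
of the insertions of `z` (pull-back along the projection forgetting one factor `X`, followed by the
product with the pull-back of `z` from this factor) maps symmetric algebraic classes on `Y × X ^ (n-1)`
to symmetric algebraic classes on `Y × X ^ n`, and the image consists of numerically trivial classes. The
point is that **`T` is injective** if `z ≠ 0`, even on the whole cohomology: if `I` is the contraction of
the first factor with a functional which is `1` at `z`, then `I T = 1 + T I` (a Heisenberg relation), so
that `(k + T I) x = 0` implies `(k + 1 + T I)(I x) = 0` for all `k ≥ 1`, and one descends to words of
length zero. So `h^j(n) ≥ r^j(n) + h^(j - c)(n - 1)`.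
-/

set_option autoImplicit false

open CategoryTheory AlgebraicGeometry

universe u v

namespace Pool.Agent.Results.MP_f569db_ag.SymmetricPowerLaw

open Pool.Agent.H914 Pool.Agent.H914.VarClass Pool.Agent.H914.VarClass.Obj
  Pool.Agent.H914.WeilCohomology Pool.Agent.Y133.Half Pool.Agent.H447 Pool.Agent.X208.SP

variable {k : Type u} [Field k] {𝒱 : VarClass k} {ops : CycleOps 𝒱}

/-- **The law for symmetric cycles.** Here `HomEqNumIn W X c` says that homological and numerical
equivalence coincide for cycles of codimension `c ≤ dim X` on `X`, `symRank ops Y X n j` is the rank of
the group of the symmetric cycles of codimension `j` on `Y × X ^ n` modulo numerical equivalence, and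
`symDim W Y X n j` is the dimension of the span of the classes of the symmetric cycles of codimension
`j` on `Y × X ^ n`. -/
theorem result (W : WeilCohomology.{u, v} ops) (X : 𝒱.Obj) (c : ℕ) (hc : c ≤ X.dim) :
    HomEqNumIn W X c ∨ ∀ (Y : 𝒱.Obj) (n j : ℕ),
      ∑ i ∈ (Finset.range (n + 1)).filter (fun i => i * c ≤ j),
        symRank ops Y X (n - i) (j - i * c) ≤ symDim W Y X n j := by
  by_cases hD : HomEqNumIn W X c
  · exact Or.inl hD
  right
  intro Y n j
  rw [HomEqNumIn] at hD
  push Not at hD
  obtain ⟨z, hz, hnum, hcl⟩ := hD
  refine sym_law W hz (fun l w hl hw => hnum w ?_) hcl Y n j
  have : X.dim - c = l := by omega
  rw [this]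
  exact hw

end Pool.Agent.Results.MP_f569db_ag.SymmetricPowerLaw
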